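import Pool.Agent.N24.FV.Main

/-!
# Finitely valued functions
-/

set_option autoImplicit false

namespace Pool.Agent.N24.FV

open Pool.Agent.Y110.FJ Pool.Agent.Y462.SS

/-- the group of the functions `X → P` with finitely many values -/
def FVF (X P : Type) [Group P] : Subgroup (X → P) where
  carrier := {f | (Set.range f).Finite}
  one_mem' := (Set.finite_singleton (1 : P)).subset (by rintro _ ⟨x, rfl⟩; rfl)
  mul_mem' := by
    intro a b ha hb
    refine (ha.mul hb).subset ?_
    rintro _ ⟨x, rfl⟩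
    exact Set.mul_mem_mul ⟨x, rfl⟩ ⟨x, rfl⟩
  inv_mem' := by
    intro a ha
    refine (Set.Finite.inv (s := Set.range a) ha).subset ?_
    rintro _ ⟨x, rfl⟩
    exact Set.inv_mem_inv.2 ⟨x, rfl⟩

/-- the action on the finitely valued functions -/
def actF (X P Q : Type) [Group P] [Group Q] [MulAction Q X] : Q →* MulAut (FVF X P) where
  toFun q :=
    { toFun := fun f => ⟨fun x => f.1 (q⁻¹ • x), f.2.subset (by rintro _ ⟨x, rfl⟩; exact ⟨_, rfl⟩)⟩
      invFun := fun f => ⟨fun x => f.1 (q • x), f.2.subset (by rintro _ ⟨x, rfl⟩; exact ⟨_, rfl⟩)⟩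
      left_inv := fun f => by
        apply Subtype.ext
        funext x
        show f.1 (q⁻¹ • q • x) = f.1 x
        rw [inv_smul_smul]
      right_inv := fun f => by
        apply Subtype.ext
        funext x
        show f.1 (q • q⁻¹ • x) = f.1 x
        rw [smul_inv_smul]
      map_mul' := fun _ _ => rfl }
  map_one' := by
    ext f x
    show f.1 ((1 : Q)⁻¹ • x) = f.1 x
    rw [inv_one, one_smul]
  map_mul' a b := by
    ext f x
    show f.1 ((a * b)⁻¹ • x) = f.1 (b⁻¹ • a⁻¹ • x)
    rw [mul_inv_rev, mul_smul]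

/-- **semidirect products of the group of all finitely valued functions** -/
theorem fvf_mem {C : ∀ (G : Type) [Group G], Prop} (hC : ClosedE C)
    (X P Q : Type) [Group P] [Group Q] [MulAction Q X] (hP : C P) (hQ : C Q) :
    C (FVF X P ⋊[actF X P Q] Q) := by
  classical
  let π : FVF X P ⋊[actF X P Q] Q →* Q := SemidirectProduct.rightHom
  have hk : ∀ n : π.ker, ∀ m : π.ker, ((n * m : π.ker) : FVF X P ⋊[actF X P Q] Q).left =
      (n : FVF X P ⋊[actF X P Q] Q).left * (m : FVF X P ⋊[actF X P Q] Q).left := by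
    intro n m
    have h1 : (n : FVF X P ⋊[actF X P Q] Q).right = 1 := n.2
    rw [Subgroup.coe_mul, SemidirectProduct.mul_left, h1, map_one]
    rfl
  refine main hC _ P X π.ker ?_ hP
    (fun x => { toFun := fun n => (n : FVF X P ⋊[actF X P Q] Q).left.1 x
                map_one' := rfl
                map_mul' := fun n m => by rw [hk]; rfl }) ?_ ?_ ?_
  · exact hC.base.of_injective _ _ (QuotientGroup.kerLift π) (QuotientGroup.kerLift_injective π) hQ
  · intro n hn
    apply Subtype.ext
    refine SemidirectProduct.ext ?_ n.2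
    apply Subtype.ext
    funext x
    exact hn x
  · intro E hE
    -- the map to tuples has finite range
    let ev : X → (E → P) := fun x n => ((n : π.ker) : FVF X P ⋊[actF X P Q] Q).left.1 x
    have : Finite E := hE
    have hfin : (Set.range ev).Finite := by
      refine (Set.Finite.pi (fun n : E => ((n : π.ker) : FVF X P ⋊[actF X P Q] Q).left.2)).subset ?_
      rintro _ ⟨x, rfl⟩ n _
      exact ⟨x, rfl⟩
    obtain ⟨Y, hY⟩ : ∃ Y : Set X, Y = (fun t : Set.range ev => t.2.choose) '' Set.univ := ⟨_, rfl⟩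
    have : Finite (Set.range ev) := hfin
    refine ⟨Y, hY ▸ Set.finite_univ.image _, fun x => ?_⟩
    refine ⟨_, by rw [hY]; exact ⟨⟨ev x, x, rfl⟩, trivial, rfl⟩, 1, fun n hn => ?_⟩
    have h1 : ev (⟨x, rfl⟩ : ev x ∈ Set.range ev).choose = ev x :=
      (⟨x, rfl⟩ : ev x ∈ Set.range ev).choose_spec
    have h2 := congrFun h1 ⟨n, hn⟩
    rw [one_mul, inv_one, mul_one]
    exact h2.symm
  · intro g x E _
    refine ⟨g.right • x, g.left.1 (g.right • x), fun n _ => ?_⟩
    show (g * (n : FVF X P ⋊[actF X P Q] Q) * g⁻¹).left.1 (g.right • x) =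
      g.left.1 (g.right • x) * (n : FVF X P ⋊[actF X P Q] Q).left.1 x *
        (g.left.1 (g.right • x))⁻¹
    have h1 : (n : FVF X P ⋊[actF X P Q] Q).right = 1 := n.2
    rw [SemidirectProduct.mul_left, SemidirectProduct.mul_left, SemidirectProduct.mul_right, h1,
      mul_one, SemidirectProduct.inv_left]
    show g.left.1 (g.right • x) *
      (n : FVF X P ⋊[actF X P Q] Q).left.1 (g.right⁻¹ • g.right • x) *
      (g.left.1 ((g.right⁻¹)⁻¹ • g.right⁻¹ • g.right • x))⁻¹ = _
    rw [inv_smul_smul, inv_inv]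

end Pool.Agent.N24.FV
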