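import Pool.Agent.N24.FV.Fs

/-!
# Functions with prescribed behaviour at infinity
-/

set_option autoImplicit false

namespace Pool.Agent.N24.FV

open Pool.Agent.Y110.FJ Pool.Agent.Y462.SS

section

variable {Ω₁ Ω₂ P : Type} [Group P] (τ₁ : Equiv.Perm Ω₁) (τ₂ : Equiv.Perm Ω₂) (κ : Ω₁ → Ω₂)

theorem ev_shift (hκ : ∀ᶠ x in Filter.cofinite, κ (τ₁ x) = τ₂ (κ x)) (k : ℤ) :
    ∀ᶠ x in Filter.cofinite, κ ((τ₁ ^ k) x) = (τ₂ ^ k) (κ x) := by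
  have hinv : ∀ᶠ x in Filter.cofinite, κ (τ₁⁻¹ x) = τ₂⁻¹ (κ x) := by
    have h1 := (τ₁⁻¹.injective.tendsto_cofinite).eventually hκ
    refine h1.mono fun x hx => ?_
    have h2 : τ₁ (τ₁⁻¹ x) = x := τ₁.apply_symm_apply x
    rw [h2] at hx
    rw [hx]
    exact (τ₂.symm_apply_apply _).symm
  induction k using Int.induction_on with
  | zero => exact Filter.Eventually.of_forall fun x => rfl
  | succ k ih =>
    have h1 := (τ₁.injective.tendsto_cofinite).eventually ih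
    refine (h1.and hκ).mono fun x hx => ?_
    rw [zpow_add, zpow_one, zpow_add, zpow_one, Equiv.Perm.mul_apply, Equiv.Perm.mul_apply, hx.1,
      hx.2]
  | pred k ih =>
    have h1 := (τ₁⁻¹.injective.tendsto_cofinite).eventually ih
    refine (h1.and hinv).mono fun x hx => ?_
    rw [zpow_sub, zpow_one, zpow_sub, zpow_one, Equiv.Perm.mul_apply, Equiv.Perm.mul_apply, hx.1,
      hx.2]

/-- the group of the sections which are given at infinity by the map `κ` -/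
def GE (hκ : ∀ᶠ x in Filter.cofinite, κ (τ₁ x) = τ₂ (κ x)) :
    Subgroup (Wr (Ω₁ ⊕ Ω₂) P × Multiplicative ℤ) where
  carrier := {w | w.1.p = Equiv.sumCongr (τ₁ ^ w.2.toAdd) (τ₂ ^ w.2.toAdd) ∧
    ∀ᶠ x in Filter.cofinite, w.1.s (Sum.inl x) = w.1.s (Sum.inr (κ x))}
  one_mem' := by
    refine ⟨?_, Filter.Eventually.of_forall fun x => rfl⟩
    ext (x | x) <;> rfl
  mul_mem' := by
    rintro a b ⟨ha, ha'⟩ ⟨hb, hb'⟩
    refine ⟨?_, ?_⟩
    · show a.1.p * b.1.p = _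
      rw [ha, hb]
      ext (x | x)
      · show Sum.inl ((τ₁ ^ a.2.toAdd) ((τ₁ ^ b.2.toAdd) x)) =
          Sum.inl ((τ₁ ^ (a.2.toAdd + b.2.toAdd)) x)
        rw [zpow_add]
        rfl
      · show Sum.inr ((τ₂ ^ a.2.toAdd) ((τ₂ ^ b.2.toAdd) x)) =
          Sum.inr ((τ₂ ^ (a.2.toAdd + b.2.toAdd)) x)
        rw [zpow_add]
        rfl
    · have h1 := ((τ₁ ^ b.2.toAdd).injective.tendsto_cofinite).eventually ha'
      refine ((h1.and hb').and (ev_shift τ₁ τ₂ κ hκ b.2.toAdd)).mono fun x hx => ?_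
      show a.1.s (b.1.p (Sum.inl x)) * b.1.s (Sum.inl x) =
        a.1.s (b.1.p (Sum.inr (κ x))) * b.1.s (Sum.inr (κ x))
      rw [hb]
      show a.1.s (Sum.inl ((τ₁ ^ b.2.toAdd) x)) * b.1.s (Sum.inl x) =
        a.1.s (Sum.inr ((τ₂ ^ b.2.toAdd) (κ x))) * b.1.s (Sum.inr (κ x))
      rw [hx.1.1, hx.1.2, hx.2]
  inv_mem' := by
    rintro a ⟨ha, ha'⟩
    have hp : (a⁻¹).1.p = Equiv.sumCongr (τ₁ ^ (-a.2.toAdd)) (τ₂ ^ (-a.2.toAdd)) := by
      show (a.1.p)⁻¹ = _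
      rw [ha, inv_eq_iff_mul_eq_one]
      ext (x | x)
      · show Sum.inl ((τ₁ ^ a.2.toAdd) ((τ₁ ^ (-a.2.toAdd)) x)) = Sum.inl x
        rw [← Equiv.Perm.mul_apply, ← zpow_add, add_neg_cancel]
        rfl
      · show Sum.inr ((τ₂ ^ a.2.toAdd) ((τ₂ ^ (-a.2.toAdd)) x)) = Sum.inr x
        rw [← Equiv.Perm.mul_apply, ← zpow_add, add_neg_cancel]
        rfl
    refine ⟨hp, ?_⟩
    have h1 := ((τ₁ ^ (-a.2.toAdd)).injective.tendsto_cofinite).eventually ha'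
    refine (h1.and (ev_shift τ₁ τ₂ κ hκ (-a.2.toAdd))).mono fun x hx => ?_
    show (a.1.s ((a⁻¹).1.p (Sum.inl x)))⁻¹ = (a.1.s ((a⁻¹).1.p (Sum.inr (κ x))))⁻¹
    rw [hp]
    show (a.1.s (Sum.inl ((τ₁ ^ (-a.2.toAdd)) x)))⁻¹ =
      (a.1.s (Sum.inr ((τ₂ ^ (-a.2.toAdd)) (κ x))))⁻¹
    rw [hx.1, hx.2]

variable (P) in
/-- the values at infinity -/
def GEr (hκ : ∀ᶠ x in Filter.cofinite, κ (τ₁ x) = τ₂ (κ x)) :
    GE (P := P) τ₁ τ₂ κ hκ →* Wr Ω₂ P × Multiplicative ℤ where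
  toFun w := (⟨fun y => w.1.1.s (Sum.inr y), τ₂ ^ w.1.2.toAdd⟩, w.1.2)
  map_one' := rfl
  map_mul' a b := by
    refine Prod.ext ?_ rfl
    apply Wr.ext
    · funext y
      show a.1.1.s (b.1.1.p (Sum.inr y)) * b.1.1.s (Sum.inr y) = _
      rw [b.2.1]
      rfl
    · show τ₂ ^ (a.1.2.toAdd + b.1.2.toAdd) = τ₂ ^ a.1.2.toAdd * τ₂ ^ b.1.2.toAdd
      rw [zpow_add]

theorem GE_mem {C : ∀ (G : Type) [Group G], Prop} (hC : ClosedE C) [Finite Ω₂] (hP : C P)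
    (hκ : ∀ᶠ x in Filter.cofinite, κ (τ₁ x) = τ₂ (κ x)) :
    C (GE (P := P) τ₁ τ₂ κ hκ) := by
  let j : GE (P := P) τ₁ τ₂ κ hκ →* Wr (Ω₁ ⊕ Ω₂) P :=
    (MonoidHom.fst _ _).comp (GE (P := P) τ₁ τ₂ κ hκ).subtype
  have hker : ∀ n ∈ (GEr P τ₁ τ₂ κ hκ).ker, n.1.2 = 1 ∧ ∀ y, n.1.1.s (Sum.inr y) = 1 := by
    intro n hn
    have h1 : GEr P τ₁ τ₂ κ hκ n = 1 := hn
    refine ⟨congrArg Prod.snd h1, fun y => ?_⟩
    exact congrFun (congrArg Wr.s (congrArg Prod.fst h1)) y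
  refine fs hC j (GEr P τ₁ τ₂ κ hκ).ker ?_ hP ?_ ?_ ?_
  · refine hC.base.of_injective _ _ (QuotientGroup.kerLift (GEr P τ₁ τ₂ κ hκ))
      (QuotientGroup.kerLift_injective _) ?_
    exact hC.base.prod _ _ (Pool.Agent.Y812.SS.t_wr C hC.base Ω₂ P inferInstance hP) hC.base.int
  · intro n hn h
    apply Subtype.ext
    exact Prod.ext h (hker n hn).1
  · intro n hn
    show n.1.1.p = 1
    rw [n.2.1, (hker n hn).1]
    ext (x | x) <;> rfl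
  · intro n hn
    have h1 : {x | n.1.1.s (Sum.inl x) ≠ 1}.Finite := by
      have h2 : {x | ¬ (n.1.1.s (Sum.inl x) = n.1.1.s (Sum.inr (κ x)))}.Finite :=
        Filter.eventually_cofinite.1 n.2.2
      refine h2.subset fun x hx h3 => hx ?_
      rw [h3, (hker n hn).2]
    refine (h1.image Sum.inl).subset ?_
    rintro (x | x) hx
    · exact ⟨x, hx, rfl⟩
    · exact absurd ((hker n hn).2 x) hx

end

end Pool.Agent.N24.FV
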