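import Pool.Agent.R779.FJ.Col
import Pool.Agent.Y812.SS.Wr

/-!
# Kernels of finitely supported sections
-/

set_option autoImplicit false

namespace Pool.Agent.N24.FV

open Pool.Agent.Y110.FJ Pool.Agent.Y462.SS

theorem crit {C : ∀ (G : Type) [Group G], Prop} (hC : ClosedE C)
    (G : Type) [Group G] (N : Subgroup G) [N.Normal] (hQ : C (G ⧸ N))
    (h : ∀ (g : G) (E : Set G), E.Finite → E ⊆ N → Realized C g E) : C G :=
  Pool.Agent.R779.FJ.t_crit Pool.Agent.Y529.FJ.t_ext
    (Pool.Agent.Y961.FJ.t_perm Pool.Agent.Y529.FJ.t_ext) C hC G N hQ h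

/-- a partial injection of a finite set extends to a permutation -/
theorem exists_perm {Ω : Type} (W : Set Ω) (hW : W.Finite) (A : Set Ω) (π : Equiv.Perm Ω)
    (hA : A ⊆ W) (hπA : π '' A ⊆ W) :
    ∃ τ : Equiv.Perm W, (∀ w : W, (w : Ω) ∈ A → ((τ w : W) : Ω) = π w) ∧
      ∀ w : W, (w : Ω) ∉ A → ((τ w : W) : Ω) ∉ π '' A := by
  classical
  have : Finite W := hW
  have : Fintype W := Fintype.ofFinite W
  let e : {w : W // (w : Ω) ∈ A} ≃ {w : W // (w : Ω) ∈ π '' A} :=
    { toFun := fun w => ⟨⟨π w.1, hπA ⟨_, w.2, rfl⟩⟩, ⟨_, w.2, rfl⟩⟩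
      invFun := fun w => ⟨⟨π.symm w.1, hA (by
        obtain ⟨a, ha, h⟩ := w.2
        rw [← h, Equiv.symm_apply_apply]
        exact ha)⟩, by
        obtain ⟨a, ha, h⟩ := w.2
        show π.symm w.1 ∈ A
        rw [← h, Equiv.symm_apply_apply]
        exact ha⟩
      left_inv := fun w => by
        apply Subtype.ext
        apply Subtype.ext
        exact π.symm_apply_apply _
      right_inv := fun w => by
        apply Subtype.ext
        apply Subtype.ext
        exact π.apply_symm_apply _ }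
  refine ⟨e.extendSubtype, fun w hw => ?_, fun w hw => ?_⟩
  · rw [e.extendSubtype_apply_of_mem w hw]
    rfl
  · exact e.extendSubtype_not_mem w hw

theorem fs {C : ∀ (G : Type) [Group G], Prop} (hC : ClosedE C) {G Ω P : Type} [Group G] [Group P]
    (j : G →* Wr Ω P) (N : Subgroup G) [hN : N.Normal] (hQ : C (G ⧸ N)) (hP : C P)
    (hinj : ∀ n ∈ N, j n = 1 → n = 1) (hp : ∀ n ∈ N, (j n).p = 1)
    (hs : ∀ n ∈ N, {x | (j n).s x ≠ 1}.Finite) : C G := by
  classical
  refine crit hC G N hQ fun g E hE hEN => ?_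
  obtain ⟨A, hA⟩ : ∃ A : Set Ω, A = ⋃ x ∈ E, {w | (j x).s w ≠ 1} := ⟨_, rfl⟩
  have hAf : A.Finite := by
    rw [hA]
    exact hE.biUnion fun x hx => hs x (hEN hx)
  have hsupp : ∀ x ∈ E, ∀ w, w ∉ A → (j x).s w = 1 := by
    intro x hx w hw
    by_contra h
    exact hw (by rw [hA]; exact Set.mem_biUnion hx h)
  set π : Equiv.Perm Ω := (j g).p with hπ
  obtain ⟨W, hW⟩ : ∃ W : Set Ω, W = A ∪ π '' A := ⟨_, rfl⟩
  have hWf : W.Finite := by
    rw [hW]
    exact hAf.union (hAf.image _)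
  obtain ⟨τ, hτ1, hτ2⟩ := exists_perm W hWf A π (hW ▸ Set.subset_union_left)
    (hW ▸ Set.subset_union_right)
  have hEg : ∀ x ∈ E, g * x * g⁻¹ ∈ N := fun x hx => hN.conj_mem x (hEN hx) g
  -- the support of the conjugates
  have hconj : ∀ x ∈ E, ∀ w, (j (g * x * g⁻¹)).s (π w) * (j g).s w = (j g).s w * (j x).s w := by
    intro x hx w
    have h1 : j (g * x * g⁻¹) * j g = j g * j x := by
      rw [← map_mul, ← map_mul, inv_mul_cancel_right]
    have h2 := congrFun (congrArg Wr.s h1) w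
    rw [Wr.mul_s, Wr.mul_s, hp x (hEN hx)] at h2
    exact h2
  have hconj1 : ∀ x ∈ E, ∀ w, w ∉ π '' A → (j (g * x * g⁻¹)).s w = 1 := by
    intro x hx w hw
    have h1 := hconj x hx (π.symm w)
    rw [Equiv.apply_symm_apply, hsupp x hx _ (fun h => hw ⟨_, h, π.apply_symm_apply w⟩),
      mul_one] at h1
    exact mul_right_cancel (h1.trans (one_mul _).symm)
  -- the supports are in `W`
  let S : Subgroup G :=
    { carrier := {n | n ∈ N ∧ ∀ w, w ∉ W → (j n).s w = 1}
      one_mem' := ⟨N.one_mem, fun w _ => by rw [map_one]; rfl⟩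
      mul_mem' := by
        rintro a b ⟨ha, ha'⟩ ⟨hb, hb'⟩
        refine ⟨N.mul_mem ha hb, fun w hw => ?_⟩
        rw [map_mul, Wr.mul_s, hp b hb, hb' w hw]
        show (j a).s w * 1 = 1
        rw [ha' w hw, mul_one]
      inv_mem' := by
        rintro a ⟨ha, ha'⟩
        refine ⟨N.inv_mem ha, fun w hw => ?_⟩
        rw [map_inv, Wr.inv_s, hp a ha]
        show ((j a).s w)⁻¹ = 1
        rw [ha' w hw, inv_one] }
  have hS : Subgroup.closure (E ∪ (fun x => g * x * g⁻¹) '' E) ≤ S := by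
    rw [Subgroup.closure_le]
    rintro _ (hx | ⟨x, hx, rfl⟩)
    · exact ⟨hEN hx, fun w hw => hsupp _ hx w fun h => hw (hW ▸ Or.inl h)⟩
    · exact ⟨hEg x hx, fun w hw => hconj1 _ hx w fun h => hw (hW ▸ Or.inr h)⟩
  have : Finite W := hWf
  refine ⟨Wr W P, inferInstance,
    { toFun := fun x => ⟨fun w => (j x).s w, 1⟩
      map_one' := ?_
      map_mul' := ?_ }, ⟨fun w => (j g).s w, τ⟩,
    Pool.Agent.Y812.SS.t_wr C hC.base W P inferInstance hP, ?_, ?_⟩
  · apply Wr.ext
    · funext w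
      show (j ((1 : Subgroup.closure (E ∪ (fun x => g * x * g⁻¹) '' E)) : G)).s w = 1
      rw [OneMemClass.coe_one, map_one]
      rfl
    · rfl
  · intro x y
    apply Wr.ext
    · funext w
      show (j ((x * y : Subgroup.closure (E ∪ (fun x => g * x * g⁻¹) '' E)) : G)).s w =
        (j x).s w * (j y).s w
      rw [Subgroup.coe_mul, map_mul, Wr.mul_s, hp y (hS y.2).1]
      rfl
    · show (1 : Equiv.Perm W) = 1 * 1
      rw [mul_one]
  · intro x y hxy
    have h1 : ∀ w : W, (j x).s w = (j y).s w := fun w => congrFun (congrArg Wr.s hxy) w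
    have h2 : j ((x : G) * (y : G)⁻¹) = 1 := by
      apply Wr.ext
      · funext w
        rw [map_mul, map_inv, Wr.mul_s, Wr.inv_s, Wr.inv_p, hp y (hS y.2).1]
        show (j x).s w * ((j y).s w)⁻¹ = 1
        by_cases hw : w ∈ W
        · rw [h1 ⟨w, hw⟩, mul_inv_cancel]
        · rw [(hS x.2).2 w hw, (hS y.2).2 w hw, one_mul, inv_one]
      · rw [map_mul, map_inv, Wr.mul_p, Wr.inv_p, hp y (hS y.2).1, hp x (hS x.2).1]
        rfl
    have h3 := hinj _ (N.mul_mem (hS x.2).1 (N.inv_mem (hS y.2).1)) h2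
    apply Subtype.ext
    exact mul_inv_eq_one.1 h3
  · intro x y hxE hy
    rw [eq_mul_inv_iff_mul_eq]
    apply Wr.ext
    · funext w
      show (j y).s (τ w) * (j g).s w = (j g).s w * (j x).s w
      rw [hy]
      by_cases hw : (w : Ω) ∈ A
      · rw [hτ1 w hw]
        exact hconj x hxE w
      · rw [hconj1 x hxE _ (hτ2 w hw), hsupp x hxE w hw, one_mul, mul_one]
    · show 1 * τ = τ * 1
      rw [one_mul, mul_one]

end Pool.Agent.N24.FV
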