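import Mathlib

/-!
# Eventually periodic paths
-/

set_option autoImplicit false

namespace Pool.Agent.N24.FV

theorem iter_per {L : Type} [Finite L] (f : L → L) :
    ∃ A d : ℕ, 0 < d ∧ ∀ i k : ℕ, A ≤ i → f^[i + d * k] = f^[i] := by
  obtain ⟨a, b, hab, h⟩ := Finite.exists_ne_map_eq_of_infinite (fun n : ℕ => f^[n])
  wlog hlt : a < b generalizing a b
  · exact this b a hab.symm h.symm (by omega)
  have h1 : ∀ i : ℕ, a ≤ i → f^[i + (b - a)] = f^[i] := by
    intro i hi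
    have e1 : i + (b - a) = (i - a) + b := by omega
    have e2 : i = (i - a) + a := by omega
    rw [e1, Function.iterate_add]
    conv_rhs => rw [e2, Function.iterate_add]
    have h' : f^[a] = f^[b] := h
    rw [h']
  refine ⟨a, b - a, by omega, fun i k hi => ?_⟩
  induction k with
  | zero => rfl
  | succ k ih =>
    have e1 : i + (b - a) * (k + 1) = i + (b - a) * k + (b - a) := by ring
    rw [e1, h1 _ (by omega), ih]

theorem exists_path {L : Type} [Finite L] (R : L → L → Prop) (h1 : ∀ x, ∃ y, R x y)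
    (h2 : ∀ y, ∃ x, R x y) :
    ∃ (ω : L → ℤ → L) (A m : ℕ), 0 < m ∧ (∀ e, ω e 0 = e) ∧
      (∀ e i, R (ω e i) (ω e (i + 1))) ∧
      (∀ e (i : ℤ) (k : ℕ), (A : ℤ) ≤ i → ω e (i + m * k) = ω e i) ∧
      (∀ e (i : ℤ) (k : ℕ), i ≤ -(A : ℤ) → ω e (i - m * k) = ω e i) := by
  choose s hs using h1
  choose q hq using h2
  obtain ⟨A, d, hd, hA⟩ := iter_per s
  obtain ⟨A', d', hd', hA'⟩ := iter_per q
  let ω : L → ℤ → L := fun e i => if 0 ≤ i then s^[i.toNat] e else q^[(-i).toNat] e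
  have hpos : ∀ e (n : ℕ), ω e n = s^[n] e := by
    intro e n
    show (if (0 : ℤ) ≤ n then s^[(n : ℤ).toNat] e else _) = _
    rw [if_pos (by omega), Int.toNat_natCast]
  have hneg : ∀ e (n : ℕ), ω e (-(n : ℤ)) = q^[n] e := by
    intro e n
    rcases Nat.eq_zero_or_pos n with rfl | hn
    · exact hpos e 0
    · show (if (0 : ℤ) ≤ -(n : ℤ) then _ else q^[(-(-(n : ℤ))).toNat] e) = _
      rw [if_neg (by omega), neg_neg, Int.toNat_natCast]
  refine ⟨ω, max A A' + 1, d * d', Nat.mul_pos hd hd', fun e => hpos e 0, fun e i => ?_,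
    fun e i k hi => ?_, fun e i k hi => ?_⟩
  · rcases lt_or_ge i 0 with hi | hi
    · obtain ⟨n, hn⟩ : ∃ n : ℕ, i = -((n + 1 : ℕ) : ℤ) := ⟨(-i - 1).toNat, by omega⟩
      have e1 : i + 1 = -(n : ℤ) := by omega
      rw [e1, hn, hneg, hneg, Function.iterate_succ_apply']
      exact hq _
    · obtain ⟨n, rfl⟩ := Int.eq_ofNat_of_zero_le hi
      have e1 : (n : ℤ) + 1 = ((n + 1 : ℕ) : ℤ) := by push_cast; ring
      rw [e1, hpos, hpos, Function.iterate_succ_apply']
      exact hs _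
  · obtain ⟨n, rfl⟩ := Int.eq_ofNat_of_zero_le (a := i) (by omega)
    have e1 : (n : ℤ) + ((d * d' : ℕ) : ℤ) * k = ((n + d * (d' * k) : ℕ) : ℤ) := by
      push_cast; ring
    rw [e1, hpos, hpos, hA _ _ (by omega)]
  · obtain ⟨n, hn⟩ : ∃ n : ℕ, i = -(n : ℤ) := ⟨(-i).toNat, by omega⟩
    subst hn
    have e1 : -(n : ℤ) - ((d * d' : ℕ) : ℤ) * k = -((n + d' * (d * k) : ℕ) : ℤ) := by
      push_cast; ring
    rw [e1, hneg, hneg, hA' _ _ (by omega)]

/-- far representatives of the residue classes -/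
def rep (A m : ℕ) [NeZero m] (b : Bool) (r : ZMod m) : ℤ :=
  if b then ((A + 1) * m : ℤ) + r.val else -((A + 1) * m : ℤ) - (-r).val

theorem rep_cast (A m : ℕ) [NeZero m] (b : Bool) (r : ZMod m) : ((rep A m b r : ℤ) : ZMod m) = r := by
  unfold rep
  cases b
  · simp
  · simp

theorem rep_true (A m : ℕ) [NeZero m] (r : ZMod m) : (A : ℤ) + 1 ≤ rep A m true r := by
  unfold rep
  have h1 : (1 : ℤ) ≤ m := by
    have := Nat.pos_of_ne_zero (NeZero.ne m)
    omega
  have h2 : ((A : ℤ) + 1) * 1 ≤ (A + 1) * m := by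
    apply mul_le_mul_of_nonneg_left h1
    omega
  rw [if_pos rfl]
  omega

theorem rep_false (A m : ℕ) [NeZero m] (r : ZMod m) : rep A m false r ≤ -((A : ℤ) + 1) := by
  unfold rep
  have h1 : (1 : ℤ) ≤ m := by
    have := Nat.pos_of_ne_zero (NeZero.ne m)
    omega
  have h2 : ((A : ℤ) + 1) * 1 ≤ (A + 1) * m := by
    apply mul_le_mul_of_nonneg_left h1
    omega
  rw [if_neg (by simp)]
  omega

theorem per_pos {L : Type} (ω : ℤ → L) (A m : ℕ) [NeZero m]
    (h : ∀ (i : ℤ) (k : ℕ), (A : ℤ) ≤ i → ω (i + m * k) = ω i) (i j : ℤ) (hi : (A : ℤ) ≤ i)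
    (hj : (A : ℤ) ≤ j) (hij : (i : ZMod m) = j) : ω i = ω j := by
  wlog hle : i ≤ j generalizing i j
  · exact (this j i hj hi hij.symm (by omega)).symm
  obtain ⟨c, hc⟩ := (ZMod.intCast_eq_intCast_iff_dvd_sub i j m).1 hij
  have hm : (0 : ℤ) < m := by exact_mod_cast Nat.pos_of_ne_zero (NeZero.ne m)
  have hc0 : 0 ≤ c := by
    by_contra h0
    have : (m : ℤ) * c < 0 := mul_neg_of_pos_of_neg hm (by omega)
    omega
  obtain ⟨k, rfl⟩ := Int.eq_ofNat_of_zero_le hc0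
  have e1 : j = i + m * k := by
    have : j - i = m * k := hc
    omega
  rw [e1, h i k hi]

theorem per_neg {L : Type} (ω : ℤ → L) (A m : ℕ) [NeZero m]
    (h : ∀ (i : ℤ) (k : ℕ), i ≤ -(A : ℤ) → ω (i - m * k) = ω i) (i j : ℤ) (hi : i ≤ -(A : ℤ))
    (hj : j ≤ -(A : ℤ)) (hij : (i : ZMod m) = j) : ω i = ω j := by
  have h1 := per_pos (fun i => ω (-i)) A m (fun i k hi => ?_) (-i) (-j) (by omega) (by omega) (by
    push_cast
    rw [hij])
  · simpa using h1
  · show ω (-(i + m * k)) = ω (-i)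
    have e1 : -(i + m * k) = -i - m * k := by ring
    rw [e1, h _ k (by omega)]

end Pool.Agent.N24.FV
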