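import Pool.Agent.N24.FV.End
import Pool.Agent.N24.FV.Path

/-!
# The finite state criterion
-/

set_option autoImplicit false
set_option linter.unusedSectionVars false

namespace Pool.Agent.N24.FV

open Pool.Agent.Y110.FJ Pool.Agent.Y462.SS

section model

variable {L P : Type} [Group P] (ω : L → ℤ → L) (A m : ℕ) [NeZero m]

/-- the shift of the paths -/
def t1 (L : Type) : Equiv.Perm (L × ℤ) := (Equiv.refl L).prodCongr (Equiv.addRight 1)

/-- the shift at infinity -/
def t2 (L : Type) (m : ℕ) : Equiv.Perm (Bool × L × ZMod m) :=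
  (Equiv.refl Bool).prodCongr ((Equiv.refl L).prodCongr (Equiv.addRight 1))

/-- the end -/
def kp (L : Type) (m : ℕ) (x : L × ℤ) : Bool × L × ZMod m := (decide (0 ≤ x.2), x.1, (x.2 : ZMod m))

theorem kp_ev [Finite L] :
    ∀ᶠ x in Filter.cofinite, kp L m (t1 L x) = t2 L m (kp L m x) := by
  rw [Filter.eventually_cofinite]
  refine (Set.Finite.prod (Set.finite_univ (α := L)) (Set.finite_singleton (-1 : ℤ))).subset ?_
  rintro ⟨e, i⟩ h
  refine ⟨trivial, ?_⟩
  by_contra hi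
  have hi' : i ≠ -1 := hi
  apply h
  show (decide (0 ≤ i + 1), e, ((i + 1 : ℤ) : ZMod m)) = (decide (0 ≤ i), e, (i : ZMod m) + 1)
  have h1 : (0 ≤ i + 1) ↔ (0 ≤ i) := by omega
  rw [decide_eq_decide.2 h1]
  push_cast
  rfl

/-- the sections given by a function on pairs of consecutive states -/
noncomputable def sec (F : L → L → P) : (L × ℤ) ⊕ (Bool × L × ZMod m) → P
  | Sum.inl x => F (ω x.1 x.2) (ω x.1 (x.2 + 1))
  | Sum.inr y => F (ω y.2.1 (rep A m y.1 y.2.2)) (ω y.2.1 (rep A m y.1 y.2.2 + 1))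

theorem far_pos (hA : ∀ e (i : ℤ) (k : ℕ), (A : ℤ) ≤ i → ω e (i + m * k) = ω e i) (e : L) (i : ℤ)
    (hi : (A : ℤ) ≤ i) (r : ZMod m) (hr : (i : ZMod m) = r) :
    ω e i = ω e (rep A m true r) ∧ ω e (i + 1) = ω e (rep A m true r + 1) := by
  have h1 := rep_true A m r
  have h2 := rep_cast A m true r
  refine ⟨per_pos _ A m (hA e) _ _ hi (by omega) ?_, per_pos _ A m (hA e) _ _ (by omega)
    (by omega) ?_⟩
  · rw [h2, hr]
  · push_cast
    rw [h2, hr]

theorem far_neg (hA : ∀ e (i : ℤ) (k : ℕ), i ≤ -(A : ℤ) → ω e (i - m * k) = ω e i) (e : L) (i : ℤ)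
    (hi : i ≤ -((A : ℤ) + 1)) (r : ZMod m) (hr : (i : ZMod m) = r) :
    ω e i = ω e (rep A m false r) ∧ ω e (i + 1) = ω e (rep A m false r + 1) := by
  have h1 := rep_false A m r
  have h2 := rep_cast A m false r
  refine ⟨per_neg _ A m (hA e) _ _ (by omega) (by omega) ?_, per_neg _ A m (hA e) _ _ (by omega)
    (by omega) ?_⟩
  · rw [h2, hr]
  · push_cast
    rw [h2, hr]

theorem sec_ev [Finite L] (hA : ∀ e (i : ℤ) (k : ℕ), (A : ℤ) ≤ i → ω e (i + m * k) = ω e i)
    (hA' : ∀ e (i : ℤ) (k : ℕ), i ≤ -(A : ℤ) → ω e (i - m * k) = ω e i) (F : L → L → P) :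
    ∀ᶠ x in Filter.cofinite, sec ω A m F (Sum.inl x) = sec ω A m F (Sum.inr (kp L m x)) := by
  rw [Filter.eventually_cofinite]
  refine (Set.Finite.prod (Set.finite_univ (α := L))
    (Set.finite_Icc (-(A : ℤ) - 1) (A : ℤ))).subset ?_
  rintro ⟨e, i⟩ h
  refine ⟨trivial, ?_⟩
  by_contra hi
  apply h
  show F (ω e i) (ω e (i + 1)) = F (ω e (rep A m (decide (0 ≤ i)) (i : ZMod m)))
    (ω e (rep A m (decide (0 ≤ i)) (i : ZMod m) + 1))
  have hi' : ¬ (-(A : ℤ) - 1 ≤ i ∧ i ≤ A) := hi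
  rcases le_or_gt 0 i with h0 | h0
  · obtain ⟨h1, h2⟩ := far_pos ω A m hA e i (by omega) _ rfl
    rw [decide_eq_true h0, ← h1, ← h2]
  · obtain ⟨h1, h2⟩ := far_neg ω A m hA' e i (by omega) _ rfl
    rw [decide_eq_false (by omega), ← h1, ← h2]

end model

/-- `φ μ` after the conjugation by `g` is conjugate to `φ x` on `E` -/
def Rel {G P L : Type} [Group G] [Group P] (g : G) (E : Set G)
    (φ : L → (↥(Subgroup.closure (E ∪ (fun x => g * x * g⁻¹) '' E)) →* P)) (a b : L) : Prop :=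
  ∃ c : P, ∀ x y : ↥(Subgroup.closure (E ∪ (fun x => g * x * g⁻¹) '' E)),
    (x : G) ∈ E → (y : G) = g * x * g⁻¹ → φ b y = c * φ a x * c⁻¹

theorem realized_of {C : ∀ (G : Type) [Group G], Prop} (hC : ClosedE C) {G P L : Type} [Group G]
    [Group P] [Finite L] (hP : C P) (g : G) (E : Set G)
    (φ : L → (↥(Subgroup.closure (E ∪ (fun x => g * x * g⁻¹) '' E)) →* P))
    (hinj : ∀ h, (∀ a, φ a h = 1) → h = 1)
    (h1 : ∀ a, ∃ b, Rel g E φ a b) (h2 : ∀ b, ∃ a, Rel g E φ a b) : Realized C g E := by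
  classical
  obtain ⟨ω, A, m, hm, hω0, hωR, hA, hA'⟩ := exists_path (Rel g E φ) h1 h2
  have : NeZero m := ⟨by omega⟩
  -- the conjugating elements
  let D : L → L → P := fun a b => if h : Rel g E φ a b then h.choose else 1
  have hD : ∀ a b, Rel g E φ a b →
      ∀ x y : ↥(Subgroup.closure (E ∪ (fun x => g * x * g⁻¹) '' E)),
        (x : G) ∈ E → (y : G) = g * x * g⁻¹ → φ b y * D a b = D a b * φ a x := by
    intro a b h x y hx hy
    have h3 : D a b = h.choose := dif_pos h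
    rw [h3, h.choose_spec x y hx hy, inv_mul_cancel_right]
  let K := GE (P := P) (t1 L) (t2 L m) (kp L m) (kp_ev m)
  let f : ↥(Subgroup.closure (E ∪ (fun x => g * x * g⁻¹) '' E)) →* K :=
    { toFun := fun h => ⟨(⟨sec ω A m (fun a _ => φ a h), 1⟩, 1), by
        refine ⟨?_, sec_ev ω A m hA hA' (fun a _ => φ a h)⟩
        ext (x | x) <;> rfl⟩
      map_one' := by
        apply Subtype.ext
        refine Prod.ext ?_ rfl
        refine Wr.ext ?_ rfl
        funext z
        rcases z with z | z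
        · exact map_one _
        · exact map_one _
      map_mul' := by
        intro x y
        apply Subtype.ext
        refine Prod.ext ?_ rfl
        refine Wr.ext ?_ rfl
        funext z
        rcases z with z | z
        · exact map_mul _ _ _
        · exact map_mul _ _ _ }
  let p : K := ⟨(⟨sec ω A m D, Equiv.sumCongr (t1 L) (t2 L m)⟩, Multiplicative.ofAdd 1), by
    refine ⟨?_, sec_ev ω A m hA hA' D⟩
    show Equiv.sumCongr (t1 L) (t2 L m) = Equiv.sumCongr (t1 L ^ (1 : ℤ)) (t2 L m ^ (1 : ℤ))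
    rw [zpow_one, zpow_one]⟩
  refine ⟨K, inferInstance, f, p, GE_mem _ _ _ hC hP _, ?_, ?_⟩
  · rw [injective_iff_map_eq_one]
    intro h hh
    apply hinj
    intro a
    have h3 : (f h).1.1.s (Sum.inl (a, 0)) = 1 := by
      rw [hh]
      rfl
    have h4 : (f h).1.1.s (Sum.inl (a, 0)) = φ (ω a 0) h := rfl
    rwa [h4, hω0] at h3
  · intro x y hx hy
    rw [eq_mul_inv_iff_mul_eq]
    apply Subtype.ext
    refine Prod.ext ?_ ?_
    · refine Wr.ext ?_ ?_
      · funext z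
        rcases z with ⟨e, i⟩ | ⟨b, e, r⟩
        · show φ (ω e (i + 1)) y * D (ω e i) (ω e (i + 1)) = D (ω e i) (ω e (i + 1)) * φ (ω e i) x
          exact hD _ _ (hωR e i) x y hx hy
        · show φ (ω e (rep A m b (r + 1))) y * D (ω e (rep A m b r)) (ω e (rep A m b r + 1)) =
            D (ω e (rep A m b r)) (ω e (rep A m b r + 1)) * φ (ω e (rep A m b r)) x
          have h3 : ω e (rep A m b (r + 1)) = ω e (rep A m b r + 1) := by
            have e1 := rep_cast A m b r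
            cases b
            · have e2 := rep_false A m r
              have e3 := rep_false A m (r + 1)
              refine per_neg _ A m (hA' e) _ _ (by omega) (by omega) ?_
              rw [rep_cast]
              push_cast
              rw [e1]
            · have e2 := rep_true A m r
              have e3 := rep_true A m (r + 1)
              refine per_pos _ A m (hA e) _ _ (by omega) (by omega) ?_
              rw [rep_cast]
              push_cast
              rw [e1]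
          rw [h3]
          exact hD _ _ (hωR e _) x y hx hy
      · show 1 * Equiv.sumCongr (t1 L) (t2 L m) = Equiv.sumCongr (t1 L) (t2 L m) * 1
        rw [one_mul, mul_one]
    · show (1 : Multiplicative ℤ) * Multiplicative.ofAdd 1 = Multiplicative.ofAdd 1 * 1
      rw [one_mul, mul_one]

/-- **the finite state criterion** -/
theorem fs_crit {C : ∀ (G : Type) [Group G], Prop} (hC : ClosedE C)
    (G : Type) [Group G] (N : Subgroup G) [N.Normal] (hQ : C (G ⧸ N))
    (h : ∀ (g : G) (E : Set G), E.Finite → E ⊆ N →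
      ∃ (P : Type) (_ : Group P) (L : Type) (_ : Finite L)
        (φ : L → (↥(Subgroup.closure (E ∪ (fun x => g * x * g⁻¹) '' E)) →* P)),
        C P ∧ (∀ h, (∀ a, φ a h = 1) → h = 1) ∧ (∀ a, ∃ b, Rel g E φ a b) ∧
        (∀ b, ∃ a, Rel g E φ a b)) : C G := by
  refine crit hC G N hQ fun g E hE hEN => ?_
  obtain ⟨P, _, L, _, φ, hP, hinj, h1, h2⟩ := h g E hE hEN
  exact realized_of hC hP g E φ hinj h1 h2

/-- The homomorphisms `φ x : N → P`, `x ∈ X`, separate the points of the normal subgroup `N`; on each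
finite subset of `N` they fall into finitely many classes under conjugation in `P`; and the
conjugation by `g` maps this family, locally and up to conjugation in `P`, onto itself. -/
structure IsFam {G P X : Type} [Group G] [Group P] (N : Subgroup G) [hN : N.Normal] (g : G)
    (φ : X → (N →* P)) : Prop where
  sep : ∀ n : N, (∀ x, φ x n = 1) → n = 1
  fin : ∀ E : Set N, E.Finite → ∃ Y : Set X, Y.Finite ∧ ∀ x, ∃ y ∈ Y, ∃ c : P, ∀ n ∈ E,
    φ x n = c * φ y n * c⁻¹
  fwd : ∀ (x : X) (E : Set N), E.Finite → ∃ (y : X) (c : P), ∀ n ∈ E,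
    φ y ⟨g * n * g⁻¹, hN.conj_mem n n.2 g⟩ = c * φ x n * c⁻¹
  bwd : ∀ (x : X) (E : Set N), E.Finite → ∃ (y : X) (c : P), ∀ n ∈ E,
    φ x ⟨g * n * g⁻¹, hN.conj_mem n n.2 g⟩ = c * φ y n * c⁻¹

/-- **kernels with locally finite families of homomorphisms** -/
theorem main_fam {C : ∀ (G : Type) [Group G], Prop} (hC : ClosedE C)
    (G : Type) [Group G] (N : Subgroup G) [hN : N.Normal] (hQ : C (G ⧸ N))
    (h : ∀ g : G, ∃ (P : Type) (_ : Group P) (X : Type) (φ : X → (N →* P)), C P ∧ IsFam N g φ) :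
    C G := by
  classical
  refine fs_crit hC G N hQ fun g E hE hEN => ?_
  obtain ⟨P, _, X, φ, hP, hφ⟩ := h g
  obtain ⟨H, hH⟩ : ∃ H, H = Subgroup.closure (E ∪ (fun x => g * x * g⁻¹) '' E) := ⟨_, rfl⟩
  have hHN : H ≤ N := by
    rw [hH, Subgroup.closure_le]
    rintro _ (hx | ⟨x, hx, rfl⟩)
    · exact hEN hx
    · exact hN.conj_mem x (hEN hx) g
  -- the finite sets in `N`
  obtain ⟨E₀, hE₀⟩ : ∃ E₀ : Set N, E₀ = Subtype.val ⁻¹' E := ⟨_, rfl⟩
  have hE₀f : E₀.Finite := by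
    rw [hE₀]
    exact hE.preimage Subtype.val_injective.injOn
  let cg : N → N := fun n => ⟨g * n * g⁻¹, hN.conj_mem n n.2 g⟩
  have hE₁f : (E₀ ∪ cg '' E₀).Finite := hE₀f.union (hE₀f.image _)
  obtain ⟨Y, hY, hYx⟩ := hφ.fin _ hE₁f
  -- `x` and its representative agree on `H`
  have hcl : ∀ x y : X, ∀ c : P, (∀ n ∈ E₀ ∪ cg '' E₀, φ x n = c * φ y n * c⁻¹) →
      ∀ n : N, (n : G) ∈ H → φ x n = c * φ y n * c⁻¹ := by
    intro x y c hc n hn
    have h1 : H ≤ (((φ x).eqLocus ((MulAut.conj c).toMonoidHom.comp (φ y))).map N.subtype) := by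
      rw [hH, Subgroup.closure_le]
      rintro _ (hz | ⟨z, hz, rfl⟩)
      · refine ⟨⟨_, hEN hz⟩, ?_, rfl⟩
        exact hc _ (Or.inl (by rw [hE₀]; exact hz))
      · refine ⟨cg ⟨z, hEN hz⟩, ?_, rfl⟩
        refine hc _ (Or.inr ⟨⟨z, hEN hz⟩, ?_, rfl⟩)
        rw [hE₀]
        exact hz
    obtain ⟨n', hn', h2⟩ := h1 hn
    have h3 : n' = n := Subtype.ext h2
    rw [h3] at hn'
    exact hn'
  have hincl : Subgroup.closure (E ∪ (fun x => g * x * g⁻¹) '' E) ≤ N := hH ▸ hHN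
  let ψ : Y → (↥(Subgroup.closure (E ∪ (fun x => g * x * g⁻¹) '' E)) →* P) :=
    fun y => (φ y).comp (Subgroup.inclusion hincl)
  have : Finite Y := hY
  refine ⟨P, inferInstance, Y, inferInstance, ψ, hP, ?_, ?_, ?_⟩
  · intro h hh
    have h1 : Subgroup.inclusion hincl h = 1 := by
      apply hφ.sep
      intro x
      obtain ⟨y, hy, c, hc⟩ := hYx x
      rw [hcl x y c hc _ (by rw [hH]; exact h.2)]
      have h2 : φ y (Subgroup.inclusion hincl h) = 1 := hh ⟨y, hy⟩
      rw [h2, mul_one, mul_inv_cancel]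
    exact Subgroup.inclusion_injective hincl (h1.trans (map_one _).symm)
  · rintro ⟨a, ha⟩
    obtain ⟨y, c, hc⟩ := hφ.fwd a E₀ hE₀f
    obtain ⟨b, hb, d, hd⟩ := hYx y
    refine ⟨⟨b, hb⟩, d⁻¹ * c, fun x z hx hz => ?_⟩
    show φ b (Subgroup.inclusion hincl z) =
      (d⁻¹ * c) * φ a (Subgroup.inclusion hincl x) * (d⁻¹ * c)⁻¹
    have h1 : Subgroup.inclusion hincl z = cg (Subgroup.inclusion hincl x) := Subtype.ext hz
    have h2 : Subgroup.inclusion hincl x ∈ E₀ := by
      rw [hE₀]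
      exact hx
    have h4 := hcl y b d hd (Subgroup.inclusion hincl z) (by rw [hH]; exact z.2)
    rw [h1] at h4 ⊢
    have h5 : φ y (cg (Subgroup.inclusion hincl x)) =
      c * φ a (Subgroup.inclusion hincl x) * c⁻¹ := hc _ h2
    rw [h5] at h4
    have h6 : φ b (cg (Subgroup.inclusion hincl x)) =
      d⁻¹ * (c * φ a (Subgroup.inclusion hincl x) * c⁻¹) * d := by
      rw [h4]
      group
    rw [h6]
    group
  · rintro ⟨a, ha⟩
    obtain ⟨y, c, hc⟩ := hφ.bwd a E₀ hE₀f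
    obtain ⟨b, hb, d, hd⟩ := hYx y
    refine ⟨⟨b, hb⟩, c * d, fun x z hx hz => ?_⟩
    show φ a (Subgroup.inclusion hincl z) =
      (c * d) * φ b (Subgroup.inclusion hincl x) * (c * d)⁻¹
    have h1 : Subgroup.inclusion hincl z = cg (Subgroup.inclusion hincl x) := Subtype.ext hz
    have h2 : Subgroup.inclusion hincl x ∈ E₀ := by
      rw [hE₀]
      exact hx
    have h4 := hcl y b d hd (Subgroup.inclusion hincl x) (by rw [hH]; exact x.2)
    have h5 : φ a (cg (Subgroup.inclusion hincl x)) =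
      c * φ y (Subgroup.inclusion hincl x) * c⁻¹ := hc _ h2
    rw [h1, h5, h4]
    group

/-- **one invariant family** -/
theorem main {C : ∀ (G : Type) [Group G], Prop} (hC : ClosedE C)
    (G P X : Type) [Group G] [Group P] (N : Subgroup G) [hN : N.Normal] (hQ : C (G ⧸ N)) (hP : C P)
    (φ : X → (N →* P)) (hinj : ∀ n, (∀ x, φ x n = 1) → n = 1)
    (hfin : ∀ E : Set N, E.Finite → ∃ Y : Set X, Y.Finite ∧ ∀ x, ∃ y ∈ Y, ∃ c : P, ∀ n ∈ E,
      φ x n = c * φ y n * c⁻¹)
    (hinv : ∀ (g : G) (x : X) (E : Set N), E.Finite → ∃ (y : X) (c : P), ∀ n ∈ E,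
      φ y ⟨g * n * g⁻¹, hN.conj_mem n n.2 g⟩ = c * φ x n * c⁻¹) : C G := by
  refine main_fam hC G N hQ fun g => ⟨P, inferInstance, X, φ, hP, hinj, hfin, hinv g, ?_⟩
  intro x E hE
  let cg : N → N := fun n => ⟨g * n * g⁻¹, hN.conj_mem n n.2 g⟩
  obtain ⟨y, c, hc⟩ := hinv g⁻¹ x (cg '' E) (hE.image _)
  refine ⟨y, c⁻¹, fun n hn => ?_⟩
  have h3 := hc _ ⟨n, hn, rfl⟩
  have h5 : (⟨g⁻¹ * (cg n : N) * g⁻¹⁻¹, hN.conj_mem _ (cg n).2 g⁻¹⟩ : N) = n := by
    apply Subtype.ext
    show g⁻¹ * (g * (n : G) * g⁻¹) * g⁻¹⁻¹ = n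
    group
  rw [h5] at h3
  show φ x (cg n) = _
  rw [h3]
  group

end Pool.Agent.N24.FV
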